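import Pool.Agent.helper23.RK.Final

/-!
# Outerness versus finite Rokhlin dimension on Kirchberg algebras
-/

namespace Pool.Agent.Results.MP_6e2074_an.OuterIffRokhlinDim

open Pool.Agent.helper23.RK

universe u v

/-- Let `α` be an action of a finite group on a Kirchberg algebra, unital or not. Then `α` is
pointwise outer if and only if its Rokhlin dimension with noncommuting towers is finite, and in
that case it is at most one. Here the Rokhlin dimension is defined through `F_∞(A)`; for unital
algebras the same holds for the local definition. -/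
theorem result :
    (∀ (A : Type u) [NonUnitalCStarAlgebra A] [PartialOrder A] [StarOrderedRing A]
      (G : Type v) [Group G] [Fintype G] (α : G →* (A ≃⋆ₐ[ℂ] A)), IsKirchberg A →
      (PointwiseOuter α ↔ ∃ d, RokDimLE α d) ∧ (PointwiseOuter α → RokDimLE α 1)) ∧
    (∀ (A : Type u) [CStarAlgebra A] [PartialOrder A] [StarOrderedRing A]
      (G : Type v) [Group G] [Fintype G] (α : G →* (A ≃⋆ₐ[ℂ] A)), IsKirchberg A →
      (PointwiseOuter α ↔ ∃ d, UnitalRokDimLE α d) ∧
        (PointwiseOuter α → UnitalRokDimLE α 1)) := by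
  constructor
  · intro A _ _ _ G _ _ α hA
    obtain ⟨hs, hsep, hn, hp⟩ := hA
    exact ⟨⟨fun h => ⟨1, rok_of_outer hs hn hp α h⟩, fun ⟨d, hd⟩ => outer_of_rok hs α d hd⟩,
      fun h => rok_of_outer hs hn hp α h⟩
  · intro A _ _ _ G _ _ α hA
    obtain ⟨hs, hsep, hn, hp⟩ := hA
    have h1 : PointwiseOuter α → UnitalRokDimLE α 1 := fun h =>
      (unitalRok_iff α 1).mpr (rok_of_outer hs hn hp α h)
    exact ⟨⟨fun h => ⟨1, h1 h⟩, fun ⟨d, hd⟩ => outer_of_rok hs α d ((unitalRok_iff α d).mp hd)⟩,
      h1⟩

end Pool.Agent.Results.MP_6e2074_an.OuterIffRokhlinDim
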